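import Pool.Agent.H68.E4N.Ker

/-! Kernel computation. -/

set_option autoImplicit false
set_option maxRecDepth 100000

namespace Pool.Agent.H68.E4N

theorem cb0 : ckb 16 0 = true := by decide +kernel
theorem cb1 : ckb 16 16 = true := by decide +kernel
theorem cb2 : ckb 16 32 = true := by decide +kernel
theorem cb3 : ckb 16 48 = true := by decide +kernel
theorem cb4 : ckb 16 64 = true := by decide +kernel
theorem cb5 : ckb 16 80 = true := by decide +kernel
theorem cb6 : ckb 16 96 = true := by decide +kernel
theorem cb7 : ckb 16 112 = true := by decide +kernel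
theorem c30 : F7.ck3 TG G3 cc3 of3 qp3 iq3 BX3 B3 DM3 0 = true := by decide +kernel
theorem c31 : F7.ck3 TG G3 cc3 of3 qp3 iq3 BX3 B3 DM3 1 = true := by decide +kernel

end Pool.Agent.H68.E4N
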