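import Pool.Agent.H68.E4N.Ker

/-! Kernel computation. -/

set_option autoImplicit false
set_option maxRecDepth 100000

namespace Pool.Agent.H68.E4N

theorem cb24 : ckb 16 384 = true := by decide +kernel
theorem cb25 : ckb 16 400 = true := by decide +kernel
theorem cb26 : ckb 16 416 = true := by decide +kernel
theorem cb27 : ckb 16 432 = true := by decide +kernel
theorem cb28 : ckb 16 448 = true := by decide +kernel
theorem cb29 : ckb 16 464 = true := by decide +kernel
theorem cb30 : ckb 16 480 = true := by decide +kernel
theorem cb31 : ckb 16 496 = true := by decide +kernel

end Pool.Agent.H68.E4N
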