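import Pool.Agent.H68.E4N.Main
import Pool.Agent.H68.F7.WAll

/-! The bound for 3-graphs with small covering sets. -/

set_option autoImplicit false
set_option maxRecDepth 100000
set_option maxHeartbeats 4000000
set_option exponentiation.threshold 3000000
open Finset

namespace Pool.Agent.H68.E4N

noncomputable section

open Pool.Agent.H68.F7 (CQ WL)
open Pool.Agent.Y435.T7 (bt)

theorem sp0 : F7.SpC 4 (fun f => (F7.vu TG 0 f 31 : ℤ) - of3 0 31) (-1044) (9225) (840) (1337) 0 2 1 5 3 6 4 7 8 := F7.SpC_of (by decide +kernel)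
theorem sp1 : F7.SpC 4 (fun f => (F7.vu TG 0 f 30 : ℤ) - of3 0 30) (-1044) (9225) (840) (1337) 1 3 0 5 2 6 4 8 7 := F7.SpC_of (by decide +kernel)
theorem sp2 : F7.SpC 4 (fun f => (F7.vu TG 0 f 29 : ℤ) - of3 0 29) (-1044) (9225) (840) (1337) 5 6 0 1 2 3 7 8 4 := F7.SpC_of (by decide +kernel)
theorem kc : 31 < 2 * G3 0 ∧ 30 < 2 * G3 0 ∧ 29 < 2 * G3 0 ∧ 31 ≠ 30 ∧ 31 ≠ 29 ∧ 30 ≠ 29 := by decide +kernel

/-- the certificate -/
theorem cert : F7.Cert 4 (F7.F5 BL GK iv) (F7.F3 TG G3) (fun m => 2 * GK m) (fun m f k => (F7.uu BL m f k : ℤ) - of m k)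
    (fun b => 2 * G3 b) (fun b f k => (F7.vu TG b f k : ℤ) - of3 b k) cC B5 B3 SS :=
  F7.cert_of tb5 tb3 reps BP cov_ok reps_lt BP_ok (by unfold DM; norm_num) (by unfold DM3; norm_num)
    (by unfold DM DM3 cC; norm_num) (by unfold cC; norm_num) k_all

/-- the bound for all 3-graphs whose covering sets have at most 480 vertices -/
theorem cov {V : Type} [Fintype V] [DecidableEq V] {K : Finset (Finset V)} (h3 : ∀ e ∈ K, e.card = 3)
    (hK : ∀ P : Finset V, P.card = 4 → ∃ Q ⊆ P, Q.card = 3 ∧ Q ∉ K)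
    (hc : ∀ S : Finset V, (∀ x ∈ S, ∀ y ∈ S, x ≠ y → ∃ e ∈ K, x ∈ e ∧ y ∈ e ∧ e ⊆ S) → S.card ≤ 480)
    {w : V → ℝ} (hw : ∀ v, 0 ≤ w v) : 6 * ∑ e ∈ K, ∏ v ∈ e, w v ≤ (5 / 9 : ℝ) * (∑ v, w v) ^ 3 := by
  refine F7.covering h3 hK hc (fun H hH w hw h1 hL hp => ?_) hw
  refine F7.cov_bound cert (by norm_num) hH hw h1 hL kc sp0 sp1 sp2 (by norm_num) hp ?_ ?_
  · unfold cC SS B5 B3
    norm_num
  · unfold SS
    norm_num

end

end Pool.Agent.H68.E4N
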