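import Pool.Agent.H68.E4N.K6

/-! Kernel computation. -/

set_option autoImplicit false
set_option maxRecDepth 100000
set_option maxHeartbeats 4000000

namespace Pool.Agent.H68.E4N

/-- representatives -/
def g10 : List (List ℕ) := [[807056, 807041, 807040], [806932, 806928, 806912], [806108, 806104, 806096], [806088, 806080, 806032], [806016, 805888, 805064], [805056, 805017, 805016], [805009, 805008, 804996], [804993, 804992, 804892], [804888, 804882, 804880], [804876, 804873, 804872], [804867, 804866, 804864], [802945, 802944, 802888], [802884, 802882, 802880], [802851, 802850, 802848], [802837, 802836, 802833], [802832, 802817, 802816], [787484, 787480, 787472], [787464, 787458, 787456], [786440, 786435, 786434], [786432, 528418, 528416], [528384, 524289, 524288], [0]]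

theorem kk10 : ∀ l ∈ g10, chkl l = true := by
  simp only [g10, List.forall_mem_cons, List.not_mem_nil, false_implies, implies_true, and_true]
  exact ⟨by decide +kernel, by decide +kernel, by decide +kernel, by decide +kernel, by decide +kernel, by decide +kernel, by decide +kernel, by decide +kernel, by decide +kernel, by decide +kernel, by decide +kernel, by decide +kernel, by decide +kernel, by decide +kernel, by decide +kernel, by decide +kernel, by decide +kernel, by decide +kernel, by decide +kernel, by decide +kernel, by decide +kernel, by decide +kernel⟩

end Pool.Agent.H68.E4N
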