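import Pool.Agent.H68.E4N.K0

/-! Kernel computation. -/

set_option autoImplicit false
set_option maxRecDepth 100000
set_option maxHeartbeats 4000000

namespace Pool.Agent.H68.E4N

/-- representatives -/
def g4 : List (List ℕ) := [[968915, 968914, 968913], [968912, 968905, 968904], [968903, 968902, 968901], [968900, 968899, 968898], [968897, 968896, 968886], [968884, 968883, 968882], [968881, 968880, 968868], [968867, 968866, 968865], [968864, 968851, 968850], [968849, 968848, 968833], [968832, 968822, 968820], [968818, 968816, 968810], [968808, 968803, 968802], [968801, 968800, 968794], [968793, 968792, 968791], [968790, 968789, 968788], [968787, 968786, 968785], [968784, 968777, 968776], [968775, 968774, 968773], [968772, 968771, 968770], [968769, 968768, 968758], [968756, 968755, 968754], [968753, 968752, 968740], [968739, 968738, 968737], [968736, 968723, 968722], [968721, 968720, 968705], [968704, 966892, 966891], [966890, 966889, 966888], [966887, 966886, 966885], [966884, 966883, 966882]]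

theorem kk4 : ∀ l ∈ g4, chkl l = true := by
  simp only [g4, List.forall_mem_cons, List.not_mem_nil, false_implies, implies_true, and_true]
  exact ⟨by decide +kernel, by decide +kernel, by decide +kernel, by decide +kernel, by decide +kernel, by decide +kernel, by decide +kernel, by decide +kernel, by decide +kernel, by decide +kernel, by decide +kernel, by decide +kernel, by decide +kernel, by decide +kernel, by decide +kernel, by decide +kernel, by decide +kernel, by decide +kernel, by decide +kernel, by decide +kernel, by decide +kernel, by decide +kernel, by decide +kernel, by decide +kernel, by decide +kernel, by decide +kernel, by decide +kernel, by decide +kernel, by decide +kernel, by decide +kernel⟩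

end Pool.Agent.H68.E4N
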