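import Pool.Agent.H68.E4N.K1

/-! Kernel computation. -/

set_option autoImplicit false
set_option maxRecDepth 100000
set_option maxHeartbeats 4000000

namespace Pool.Agent.H68.E4N

/-- representatives -/
def g5 : List (List ℕ) := [[966881, 966880, 966857], [966856, 966855, 966854], [966853, 966852, 966849], [966848, 966838, 966837], [966836, 966833, 966832], [966821, 966820, 966819], [966818, 966817, 966816], [966785, 966784, 966764], [966763, 966762, 966761], [966760, 966759, 966758], [966757, 966756, 966755], [966754, 966753, 966752], [966729, 966728, 966727], [966726, 966725, 966724], [966721, 966720, 966711], [966710, 966709, 966708], [966705, 966704, 966693], [966692, 966691, 966690], [966689, 966688, 966657], [966656, 959913, 959912], [959905, 959904, 959873], [959872, 959805, 959804], [959800, 959797, 959796], [959793, 959792, 959787], [959786, 959785, 959784], [959782, 959781, 959780], [959779, 959778, 959777], [959776, 959769, 959768], [959765, 959764, 959761], [959760, 959755, 959754]]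

theorem kk5 : ∀ l ∈ g5, chkl l = true := by
  simp only [g5, List.forall_mem_cons, List.not_mem_nil, false_implies, implies_true, and_true]
  exact ⟨by decide +kernel, by decide +kernel, by decide +kernel, by decide +kernel, by decide +kernel, by decide +kernel, by decide +kernel, by decide +kernel, by decide +kernel, by decide +kernel, by decide +kernel, by decide +kernel, by decide +kernel, by decide +kernel, by decide +kernel, by decide +kernel, by decide +kernel, by decide +kernel, by decide +kernel, by decide +kernel, by decide +kernel, by decide +kernel, by decide +kernel, by decide +kernel, by decide +kernel, by decide +kernel, by decide +kernel, by decide +kernel, by decide +kernel, by decide +kernel⟩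

end Pool.Agent.H68.E4N
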