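import Pool.Agent.H68.E4N.Tab
import Pool.Agent.H68.F7.Chk

/-! Functions computed by the kernel. -/

set_option autoImplicit false
set_option maxRecDepth 100000

namespace Pool.Agent.H68.E4N

open Pool.Agent.Y435.T7 (st cnd al bt get swp)

noncomputable section

/-- data of a mask -/
def md (m : ℕ) : ℕ := Nat.land (Nat.shiftRight MDn (Nat.mul 24 m)) 16777215
def GT (c : ℕ) : ℕ := Nat.land (Nat.shiftRight GTn (Nat.mul 8 c)) 255
def cl (m : ℕ) : ℕ := Nat.land (md m) 127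
/-- number of groups of two columns -/
def GK (m : ℕ) : ℕ := GT (cl m)
def cc (m : ℕ) : ℕ := Nat.land (Nat.shiftRight CCn (Nat.mul 40 (cl m))) 1099511627775
/-- masks with a complete set -/
def iv (m : ℕ) : Bool := Nat.beq (cl m) 127
/-- shift of a column -/
def of (m k : ℕ) : ℕ := Nat.land (Nat.shiftRight OOn (Nat.mul 20 (Nat.add k (Nat.mul 32 (cl m))))) 1048575
def sw1 (c x : ℕ) : ℕ := cnd (Nat.beq c 0) x (st (fun p => st (fun q => swp 40 8 p q x) (Nat.shiftRight c 2)) (Nat.land c 3))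
def pj (s j : ℕ) : ℕ := Nat.land (Nat.shiftRight PJn (Nat.mul 6 (Nat.add j (Nat.mul 64 s)))) 63
/-- block `q` of the class `c` -/
def BC (c q : ℕ) : ℕ := st (fun w => Nat.land (Nat.shiftRight (st (fun a => get DT a) (Nat.add c (Nat.mul 128 (Nat.div q 8))))
  (Nat.mul w (Nat.mod q 8))) (Nat.sub (Nat.pow 2 w) 1)) (Nat.mul 640 (Nat.add (GT c) 1))
/-- block `j` of the table of a mask -/
def BL (m j : ℕ) : ℕ := st (fun d => sw1 (Nat.land (Nat.shiftRight d 20) 15) (sw1 (Nat.land (Nat.shiftRight d 16) 15)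
  (sw1 (Nat.land (Nat.shiftRight d 12) 15) (st (fun c => st (fun q => BC c q) (pj (Nat.land (Nat.shiftRight d 7) 31) j)) (Nat.land d 127))))) (md m)
def qm (m : ℕ) : ℕ := Nat.land (Nat.shiftRight QPn (Nat.mul 768 m)) (Nat.sub (Nat.pow 2 768) 1)
def im (m : ℕ) : ℕ := Nat.land (Nat.shiftRight IQn (Nat.mul 640 m)) (Nat.sub (Nat.pow 2 640) 1)
def qp (m i k : ℕ) : ℕ := Nat.land (Nat.shiftRight (qm m) (Nat.mul 6 (Nat.add k (Nat.mul 32 i)))) 63
def iq (m i k : ℕ) : ℕ := Nat.land (Nat.shiftRight (im m) (Nat.mul 5 (Nat.add k (Nat.mul 32 i)))) 31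

/-- tables of three roots -/
def TG (b g : ℕ) : ℕ := Nat.land (get VT (Nat.add b (Nat.mul 2 g))) (Nat.sub (Nat.pow 2 20480) 1)
def G3 (b : ℕ) : ℕ := cnd (Nat.beq b 0) 16 14
def cc3 (b : ℕ) : ℕ := Nat.land (Nat.shiftRight C3n (Nat.mul 40 b)) 1099511627775
def of3 (b k : ℕ) : ℕ := Nat.land (Nat.shiftRight O3n (Nat.mul 20 (Nat.add k (Nat.mul 32 b)))) 1048575
def qp3 (b i k : ℕ) : ℕ := Nat.land (Nat.shiftRight QP3n (Nat.mul 6 (Nat.add k (Nat.add (Nat.mul 32 i) (Nat.mul 64 b))))) 63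
def iq3 (b i k : ℕ) : ℕ := Nat.land (Nat.shiftRight IQ3n (Nat.mul 5 (Nat.add k (Nat.add (Nat.mul 32 i) (Nat.mul 64 b))))) 31

/-- complete sets with the vertex of the flag -/
def BX : List (List ℕ × List ℕ) := [([0], [4, 5, 6]), ([1], [4, 7, 8]), ([4], [4, 0, 1]), ([2], [5, 7, 9]), ([5], [5, 0, 2]), ([7], [7, 0, 3]), ([3], [6, 8, 9]), ([6], [6, 1, 2]), ([8], [8, 1, 3]), ([9], [9, 2, 3])]
/-- complete sets in the roots -/
def CL : List (List ℕ) := [[0, 1, 2, 3], [0, 4, 5, 6], [1, 4, 7, 8], [2, 5, 7, 9], [3, 6, 8, 9]]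
def BX3 : List (List ℕ × List ℕ) := [([0], [0, 1, 5]), ([0], [2, 3, 6]), ([], [0, 2, 4, 7]), ([], [1, 3, 4, 8]), ([], [5, 6, 7, 8])]
def B5 : ℕ := 8659619708
def B3 : ℕ := 3310618164
def SS : ℕ := 52000000
def DM : ℕ := 15466672908
def DM3 : ℕ := 6036296308
/-- the bound -/
def cC : ℕ := 535555207887

def ckb (n b : ℕ) : Bool := F7.ckB BL GK cc iv of qp iq BX CL B5 SS DM n b
def ck (c : ℕ) : Bool := F7.chk BL GK iv TG G3 cC c
def chkl (l : List ℕ) : Bool := @List.rec ℕ (fun _ => Bool) true (fun c _ ih => cnd (st ck c) ih false) l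

end

end Pool.Agent.H68.E4N
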